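import Pool.Agent.H.MP_543b58_an.C

set_option autoImplicit false
open Filter Topology Complex Metric Set
open scoped ComplexConjugate

namespace Pool.Agent.Results.MP_543b58_an.Attached

open Pool.Agent.H.MP_543b58_an in
theorem result (r : ℝ) (hr : 0 < r) (f : ℂ → ℂ) (hf : AnalyticOnNhd ℂ f (closedBall 0 r))
    (h0 : f 0 = 0) (h1 : deriv f 0 = 0) (h2 : iteratedDeriv 2 f 0 = 2)
    (h3 : ∃ n : ℕ, 1 ≤ n ∧ iteratedDeriv (2 * n + 1) f 0 ≠ 0) :
    ∃ φ : ℂ → ℂ × ℂ, ContinuousOn φ (closedBall 0 1) ∧ DifferentiableOn ℂ φ (ball 0 1) ∧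
      MapsTo φ (sphere 0 1) ((fun z => (z ^ 2, f (conj z))) '' closedBall 0 r) ∧
      ¬ MapsTo φ (closedBall 0 1) ((fun z => (z ^ 2, f (conj z))) '' closedBall 0 r) := by
  classical
  obtain ⟨n, -, h3⟩ := h3
  have b0 : (0:ℂ) ∈ closedBall (0:ℂ) r := mem_closedBall_self hr.le
  obtain ⟨Y, y1, y2, y3⟩ := exY (hf 0 b0) h0 h1 (by rw [h2]; exact two_ne_zero) h3 hr
  have s1 : ∀ w, |(sg w).re| < 2 := fun w => (sg_lt w).trans one_lt_two
  have s2 : ∀ w, |(-conj (sg w)).re| < 2 := fun w => by simpa using s1 w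
  have fd : ∀ z : ℂ, ‖z‖ < r → DifferentiableAt ℂ f z := fun z hz =>
    (hf z (mem_closedBall_zero_iff.2 hz.le)).differentiableAt
  have cd : ∀ (g : ℂ → ℂ) (w : ℂ), DifferentiableAt ℂ g (Y (-conj (sg w))) →
      DifferentiableAt ℂ sg w → DifferentiableAt ℂ (fun w => conj (g (Y (-conj (sg w))))) w :=
    fun g w hg hs => (differentiableAt_conj_conj_iff.2 ((hg.comp _ (y1 _ (s2 w)).1).comp
      (conj (sg w)) differentiableAt_id.neg)).comp w hs
  set Φ : ℂ → ℂ × ℂ := fun w => (conj (Y (-conj (sg w))) ^ 2, f (Y (sg w))) with hΦ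
  have Φd : ∀ w, DifferentiableAt ℂ sg w → DifferentiableAt ℂ Φ w := fun w hs =>
    ((cd id w differentiableAt_id hs).pow 2).prodMk
      (((fd _ (y1 _ (s1 w)).2.2).comp _ (y1 _ (s1 w)).1).comp w hs)
  set φ : ℂ → ℂ × ℂ := fun w => if w = 1 ∨ w = -1 then 0 else Φ w with hφ
  have e1 : ∀ w, w ≠ 1 → w ≠ -1 → φ w = Φ w := fun w a b => if_neg (not_or.2 ⟨a, b⟩)
  have φd : ∀ w : ℂ, ‖w‖ ≤ 1 → w ≠ 1 → w ≠ -1 → DifferentiableAt ℂ φ w := fun w a b c =>
    (Φd w (sg_d a b c)).congr_of_eventuallyEq (by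
      filter_upwards [eventually_ne_nhds b, eventually_ne_nhds c] with v d e using e1 v d e)
  have bl : ∀ w ∈ ball (0:ℂ) 1, ‖w‖ ≤ 1 ∧ w ≠ 1 ∧ w ≠ -1 := fun w hw => by
    rw [mem_ball_zero_iff] at hw
    refine ⟨hw.le, ?_, ?_⟩ <;> rintro rfl <;> simp at hw
  have φc : ContinuousOn φ (closedBall 0 1) := by
    intro w hw
    by_cases hc : w = 1 ∨ w = -1
    swap
    · exact (φd w (mem_closedBall_zero_iff.1 hw) (not_or.1 hc).1
        (not_or.1 hc).2).continuousAt.continuousWithinAt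
    refine ContinuousAt.continuousWithinAt (continuousAt_iff_punctured_nhds.2 ?_)
    have tY : ∀ τ : ℂ → ℂ, (∀ v, |(τ v).re| < 2) → (∀ v, |(τ v).im| = |(sg v).im|) →
        Tendsto (fun v => Y (τ v)) (𝓝[≠] w) (𝓝 0) := fun τ a b => by
      refine Metric.tendsto_nhds.2 fun e he => ?_
      obtain ⟨R, hR⟩ := y3 e he
      filter_upwards [(sg_t hc).eventually_ge_atTop R] with v hv
      rw [dist_zero_right]; exact hR _ (a v) (b v ▸ hv)
    have t1 := ((continuous_conj.tendsto _).comp (tY _ s2 fun v => by simp)).pow 2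
    have t2 := (hf 0 b0).continuousAt.tendsto.comp (tY _ s1 fun v => rfl)
    have t3 := t1.prodMk_nhds t2
    simp only [map_zero, h0, ne_eq, OfNat.ofNat_ne_zero, not_false_eq_true, zero_pow] at t3
    rw [show φ w = (0, 0) from if_pos hc]
    refine t3.congr' ?_
    have : ∀ᶠ v in 𝓝[≠] w, v ≠ -w := mem_nhdsWithin_of_mem_nhds (eventually_ne_nhds (by
      rcases hc with rfl | rfl <;> norm_num))
    filter_upwards [self_mem_nhdsWithin, this] with v a b
    refine (e1 v ?_ ?_).symm <;> rcases hc with rfl | rfl <;> simp_all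
  have φb : DifferentiableOn ℂ φ (ball 0 1) := fun w hw =>
    (φd w (bl w hw).1 (bl w hw).2.1 (bl w hw).2.2).differentiableWithinAt
  refine ⟨φ, φc, φb, fun w hw => ?_, fun hK => ?_⟩
  · by_cases hc : w = 1 ∨ w = -1
    · exact ⟨0, b0, by rw [show φ w = (0, 0) from if_pos hc]; simp [h0]⟩
    rw [e1 w (not_or.1 hc).1 (not_or.1 hc).2]
    have hn := (y1 _ (s2 w)).2.2.le
    rcases sg_b (mem_sphere_zero_iff_norm.1 hw) (not_or.1 hc).1 (not_or.1 hc).2 with h | h
    · have e : -conj (sg w) = sg w := Complex.ext (by simp [h]) (by simp)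
      refine ⟨conj (Y (-conj (sg w))), by simpa using hn, ?_⟩
      simp only [hΦ, e, conj_conj]
    · have e : sg w = -conj (sg w) - 1 := Complex.ext (by simp [h]; norm_num) (by simp)
      refine ⟨-conj (Y (-conj (sg w))), by simpa using hn, ?_⟩
      simp only [hΦ, neg_sq, map_neg, conj_conj]
      rw [← y2 _ (by simp [h]; norm_num) (by simp [h]; norm_num), ← e]
  set A : ℂ → ℂ := fun w => (φ w).2 with hA
  have Aa : AnalyticOnNhd ℂ A (ball 0 1) := φb.snd.analyticOnNhd isOpen_ball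
  have Ae : ∀ w ∈ ball (0:ℂ) 1, A w = f (Y (sg w)) := fun w hw => by
    simp only [hA, e1 w (bl w hw).2.1 (bl w hw).2.2, hΦ]
  set B : ℂ → ℂ → ℂ := fun s w => conj (f (s * Y (-conj (sg w)))) with hB
  have Ba : ∀ s : ℂ, ‖s‖ = 1 → DifferentiableOn ℂ (B s) (ball 0 1) := fun s hs w hw =>
    (cd (fun z => f (s * z)) w ((fd _ (by rw [norm_mul, hs, one_mul]; exact (y1 _ (s2 w)).2.2)).comp
      _ (differentiableAt_id.const_mul s))
      (sg_d (bl w hw).1 (bl w hw).2.1 (bl w hw).2.2)).differentiableWithinAt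
  have alt : ∀ w ∈ ball (0:ℂ) 1, conj (A w) = B 1 w ∨ conj (A w) = B (-1) w := fun w hw => by
    obtain ⟨s, -, hs⟩ := hK (ball_subset_closedBall hw)
    have a1 := congrArg Prod.fst hs
    have a2 : f (conj s) = A w := congrArg Prod.snd hs
    simp only [e1 w (bl w hw).2.1 (bl w hw).2.2, hΦ] at a1
    rcases sq_eq_sq_iff_eq_or_eq_neg.1 a1 with h | h
    · left; simp [hB, ← a2, h]
    · right; simp [hB, ← a2, h]
  obtain ⟨s, hs, w, e, e0, eb, hw⟩ : ∃ s : ℂ, ‖s‖ = 1 ∧ ∃ w : ℂ, ∃ e > 0, ball w e ⊆ ball 0 1 ∧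
      ∀ v ∈ ball w e, conj (A v) = B s v := by
    by_cases h : ∀ v ∈ ball (0:ℂ) 1, conj (A v) = B 1 v
    · exact ⟨1, norm_one, 0, 1, one_pos, subset_rfl, h⟩
    push Not at h
    obtain ⟨w, hw, h⟩ := h
    have c1 : ContinuousAt (fun v => conj (A v) - B 1 v) w :=
      (continuous_conj.continuousAt.comp (Aa w hw).continuousAt).sub
        ((Ba 1 norm_one).differentiableAt (isOpen_ball.mem_nhds hw)).continuousAt
    obtain ⟨e, e0, he⟩ := Metric.eventually_nhds_iff_ball.1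
      ((c1.eventually_ne (sub_ne_zero.2 h)).and (isOpen_ball.mem_nhds hw))
    exact ⟨-1, by simp, w, e, e0, fun v hv => (he v hv).2,
      fun v hv => (alt v (he v hv).2).resolve_left (sub_ne_zero.1 (he v hv).1)⟩
  have cn : IsConnected (ball w e) := (convex_ball w e).isConnected (nonempty_ball.2 e0)
  obtain ⟨c1, hc1⟩ := ((Aa.mono eb).add (((Ba s hs).mono eb).analyticOnNhd
    isOpen_ball)).eq_const_of_im_eq_const (c₀ := 0) (fun v hv => by simp [← hw v hv]) isOpen_ball cn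
  obtain ⟨c, hc⟩ := (Aa.mono eb).eq_const_of_re_eq_const (c₀ := c1.re / 2) (fun v hv => by
    rw [← hc1 v hv]; simp [← hw v hv]) isOpen_ball cn
  have al := Aa.eqOn_of_preconnected_of_eventuallyEq (g := fun _ => c) analyticOnNhd_const
    (convex_ball 0 1).isPreconnected (eb (mem_ball_self e0))
    (eventually_of_mem (ball_mem_nhds w e0) hc)
  have cl := al.of_subset_closure φc.snd continuousOn_const ball_subset_closedBall
    (closure_ball (0:ℂ) one_ne_zero).symm.subset (show (1:ℂ) ∈ closedBall 0 1 by simp)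
  have z1 : A 1 = 0 := by simp [hA, hφ]
  exact (y1 _ (s1 0)).2.1 ((Ae 0 (mem_ball_self one_pos)).symm.trans
    ((al (mem_ball_self one_pos)).trans (cl.symm.trans z1)))

end Pool.Agent.Results.MP_543b58_an.Attached
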